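import Pool.Agent.H308R3.DM.Stmts

/-!
# Project DIAMOND, task DM-Mix: the kernel of the killed one-dimensional walk
-/

set_option autoImplicit false

open Finset

namespace Pool.Agent.H791R3.DM

open Pool.Agent.H308R3.DM

theorem tele (φ : ℝ) (n : ℕ) :
    ∑ j ∈ range n, 2 * Real.sin (φ / 2) * Real.cos (((j : ℝ) + 1) * φ) =
      Real.sin (((n : ℝ) + 1 / 2) * φ) - Real.sin (φ / 2) := by
  induction n with
  | zero =>
    have : ((0 : ℕ) : ℝ) = 0 := Nat.cast_zero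
    rw [sum_range_zero, this]
    have e : (0 + 1 / 2 : ℝ) * φ = φ / 2 := by ring
    rw [e, sub_self]
  | succ n ih =>
    rw [sum_range_succ, ih]
    have e1 : ((n : ℝ) + 1 / 2) * φ = ((n : ℝ) + 1) * φ - φ / 2 := by ring
    have e2 : (((n + 1 : ℕ) : ℝ) + 1 / 2) * φ = ((n : ℝ) + 1) * φ + φ / 2 := by push_cast; ring
    rw [e1, e2, Real.sin_sub, Real.sin_add]
    ring

/-- The sum of cosines. -/
theorem cos_sum (A : ℕ) (k : ℤ) (hk : Real.sin ((k : ℝ) * (Real.pi / (A + 1)) / 2) ≠ 0) :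
    ∑ j ∈ range A, Real.cos (((j : ℝ) + 1) * ((k : ℝ) * (Real.pi / (A + 1)))) =
      -(1 + Real.cos (k * Real.pi)) / 2 := by
  set φ := (k : ℝ) * (Real.pi / (A + 1)) with hφ
  have h := tele φ A
  rw [← mul_sum] at h
  have hN : (0 : ℝ) < (A : ℝ) + 1 := by positivity
  have e : ((A : ℝ) + 1 / 2) * φ = k * Real.pi - φ / 2 := by
    rw [hφ]
    field_simp
    ring
  rw [e, Real.sin_sub, Real.sin_int_mul_pi] at h
  have h2 : Real.sin (φ / 2) * (2 * ∑ j ∈ range A, Real.cos (((j : ℝ) + 1) * φ)) =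
      Real.sin (φ / 2) * (-(1 + Real.cos (k * Real.pi))) := by linarith
  have h3 := mul_left_cancel₀ hk h2
  linarith

theorem sin_ne {A : ℕ} {k : ℤ} (h0 : k ≠ 0) (h1 : -(2 * ((A : ℤ) + 1)) < k)
    (h2 : k < 2 * ((A : ℤ) + 1)) : Real.sin ((k : ℝ) * (Real.pi / (A + 1)) / 2) ≠ 0 := by
  have hN : (0 : ℝ) < (A : ℝ) + 1 := by positivity
  have hp := Real.pi_pos
  have key : ∀ k : ℤ, 0 < k → k < 2 * ((A : ℤ) + 1) →
      0 < Real.sin ((k : ℝ) * (Real.pi / (A + 1)) / 2) := by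
    intro k hk hk2
    have k1 : (0 : ℝ) < k := by exact_mod_cast hk
    have k2 : (k : ℝ) < 2 * ((A : ℝ) + 1) := by exact_mod_cast hk2
    refine Real.sin_pos_of_pos_of_lt_pi (by positivity) ?_
    rw [mul_div_assoc', div_div, div_lt_iff₀ (by positivity)]
    nlinarith
  rcases lt_or_gt_of_ne h0 with h | h
  · have := key (-k) (by linarith) (by linarith)
    have e : (((-k : ℤ)) : ℝ) * (Real.pi / (A + 1)) / 2 = -((k : ℝ) * (Real.pi / (A + 1)) / 2) := by
      push_cast; ring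
    rw [e, Real.sin_neg] at this
    intro h'
    rw [h'] at this
    simp at this
  · exact (key k h h2).ne'

/-- The terms of the kernel. -/
noncomputable def tm (A s : ℕ) (x y : ℤ) (j : ℕ) : ℝ :=
  Real.cos (((j : ℝ) + 1) * (Real.pi / (A + 1))) ^ s *
    (Real.sin (((j : ℝ) + 1) * ((x : ℝ) * (Real.pi / (A + 1)))) *
      Real.sin (((j : ℝ) + 1) * ((y : ℝ) * (Real.pi / (A + 1)))))

/-- The kernel. -/
noncomputable def Kr (A s : ℕ) (x y : ℤ) : ℝ := 2 / ((A : ℝ) + 1) * ∑ j ∈ range A, tm A s x y j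

theorem tm_zero (A s : ℕ) (y : ℤ) (j : ℕ) : tm A s 0 y j = 0 := by
  unfold tm
  simp

theorem tm_last (A s : ℕ) (y : ℤ) (j : ℕ) : tm A s ((A : ℤ) + 1) y j = 0 := by
  unfold tm
  have hN : (0 : ℝ) < (A : ℝ) + 1 := by positivity
  have e : ((j : ℝ) + 1) * ((((A : ℤ) + 1 : ℤ) : ℝ) * (Real.pi / (A + 1))) =
      ((j + 1 : ℕ) : ℝ) * Real.pi := by
    push_cast
    field_simp
  rw [e, Real.sin_nat_mul_pi]
  ring

theorem tm_succ (A s : ℕ) (x y : ℤ) (j : ℕ) :
    tm A (s + 1) x y j = (tm A s (x - 1) y j + tm A s (x + 1) y j) / 2 := by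
  unfold tm
  have e1 : ((j : ℝ) + 1) * (((x - 1 : ℤ) : ℝ) * (Real.pi / (A + 1))) =
      ((j : ℝ) + 1) * ((x : ℝ) * (Real.pi / (A + 1))) - ((j : ℝ) + 1) * (Real.pi / (A + 1)) := by
    push_cast; ring
  have e2 : ((j : ℝ) + 1) * (((x + 1 : ℤ) : ℝ) * (Real.pi / (A + 1))) =
      ((j : ℝ) + 1) * ((x : ℝ) * (Real.pi / (A + 1))) + ((j : ℝ) + 1) * (Real.pi / (A + 1)) := by
    push_cast; ring
  rw [e1, e2, Real.sin_sub, Real.sin_add, pow_succ]
  ring

theorem Kr_succ (A s : ℕ) (x y : ℤ) :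
    Kr A (s + 1) x y = (Kr A s (x - 1) y + Kr A s (x + 1) y) / 2 := by
  unfold Kr
  rw [← mul_add, ← sum_add_distrib, mul_div_assoc, sum_div]
  congr 1
  exact sum_congr rfl fun j _ => tm_succ A s x y j

theorem orth (A : ℕ) (x y : ℤ) (hx1 : 1 ≤ x) (hx2 : x ≤ A) (hy1 : 1 ≤ y) (hy2 : y ≤ A) :
    ∑ j ∈ range A, tm A 0 x y j = if x = y then ((A : ℝ) + 1) / 2 else 0 := by
  have e : ∀ j : ℕ, tm A 0 x y j =
      (Real.cos (((j : ℝ) + 1) * (((x - y : ℤ) : ℝ) * (Real.pi / (A + 1)))) -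
        Real.cos (((j : ℝ) + 1) * (((x + y : ℤ) : ℝ) * (Real.pi / (A + 1))))) / 2 := by
    intro j
    unfold tm
    have e1 : ((j : ℝ) + 1) * (((x - y : ℤ) : ℝ) * (Real.pi / (A + 1))) =
        ((j : ℝ) + 1) * ((x : ℝ) * (Real.pi / (A + 1))) -
          ((j : ℝ) + 1) * ((y : ℝ) * (Real.pi / (A + 1))) := by push_cast; ring
    have e2 : ((j : ℝ) + 1) * (((x + y : ℤ) : ℝ) * (Real.pi / (A + 1))) =
        ((j : ℝ) + 1) * ((x : ℝ) * (Real.pi / (A + 1))) +
          ((j : ℝ) + 1) * ((y : ℝ) * (Real.pi / (A + 1))) := by push_cast; ring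
    rw [e1, e2, Real.cos_sub, Real.cos_add, pow_zero]
    ring
  rw [sum_congr rfl fun j _ => e j, ← sum_div, sum_sub_distrib,
    cos_sum A (x + y) (sin_ne (by omega) (by omega) (by omega))]
  have hc : Real.cos (((x + y : ℤ) : ℝ) * Real.pi) = Real.cos (((x - y : ℤ) : ℝ) * Real.pi) := by
    have : ((x + y : ℤ) : ℝ) * Real.pi = ((x - y : ℤ) : ℝ) * Real.pi + (y : ℝ) * (2 * Real.pi) := by
      push_cast; ring
    rw [this, Real.cos_add_int_mul_two_pi]
  by_cases hxy : x = y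
  · subst hxy
    rw [if_pos rfl, hc]
    simp
  · rw [if_neg hxy, cos_sum A (x - y) (sin_ne (by omega) (by omega) (by omega)), hc]
    ring

theorem q_eq (A s : ℕ) (y : ℤ) (hy1 : 1 ≤ y) (hy2 : y ≤ A) :
    ∀ x : ℤ, 0 ≤ x → x ≤ A + 1 → q A s x y = Kr A s x y := by
  have hN : (0 : ℝ) < (A : ℝ) + 1 := by positivity
  have K0 : ∀ s, Kr A s 0 y = 0 := fun s => by
    unfold Kr
    rw [sum_eq_zero fun j _ => tm_zero A s y j, mul_zero]
  have K1 : ∀ s, Kr A s ((A : ℤ) + 1) y = 0 := fun s => by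
    unfold Kr
    rw [sum_eq_zero fun j _ => tm_last A s y j, mul_zero]
  induction s with
  | zero =>
    intro x h0 h1
    unfold q
    by_cases hx : 1 ≤ x ∧ x ≤ A
    · unfold Kr
      rw [orth A x y hx.1 hx.2 hy1 hy2]
      by_cases hxy : x = y
      · rw [if_pos ⟨hxy, hx⟩, if_pos hxy]
        field_simp
      · rw [if_neg (fun h => hxy h.1), if_neg hxy, mul_zero]
    · rw [if_neg (fun h => hx h.2)]
      have : x = 0 ∨ x = (A : ℤ) + 1 := by omega
      rcases this with h | h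
      · rw [h, K0]
      · rw [h, K1]
  | succ s ih =>
    intro x h0 h1
    unfold q
    by_cases hx : 1 ≤ x ∧ x ≤ A
    · rw [if_pos hx, ih (x - 1) (by omega) (by omega), ih (x + 1) (by omega) (by omega), Kr_succ]
    · rw [if_neg hx]
      have : x = 0 ∨ x = (A : ℤ) + 1 := by omega
      rcases this with h | h
      · rw [h, K0]
      · rw [h, K1]

theorem sin_low {A : ℕ} {x : ℤ} (hx1 : 1 ≤ x) (hx2 : x ≤ A) :
    2 / ((A : ℝ) + 1) ≤ Real.sin ((x : ℝ) * (Real.pi / (A + 1))) := by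
  have hN : (0 : ℝ) < (A : ℝ) + 1 := by positivity
  have hp := Real.pi_pos
  have x1 : (1 : ℝ) ≤ x := by exact_mod_cast hx1
  have x2 : (x : ℝ) ≤ A := by exact_mod_cast hx2
  by_cases h : 2 * (x : ℝ) ≤ A + 1
  · have h1 : (x : ℝ) * (Real.pi / (A + 1)) ≤ Real.pi / 2 := by
      rw [mul_div_assoc', div_le_div_iff₀ hN (by norm_num)]
      nlinarith
    have h2 := Real.mul_le_sin (by positivity : 0 ≤ (x : ℝ) * (Real.pi / (A + 1))) h1
    refine le_trans ?_ h2
    have e : 2 / Real.pi * ((x : ℝ) * (Real.pi / (A + 1))) = 2 * x / (A + 1) := by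
      field_simp
    rw [e]
    exact div_le_div_of_nonneg_right (by linarith) hN.le
  · push Not at h
    have e0 : Real.sin ((x : ℝ) * (Real.pi / (A + 1))) =
        Real.sin (((A : ℝ) + 1 - x) * (Real.pi / (A + 1))) := by
      have : ((A : ℝ) + 1 - x) * (Real.pi / (A + 1)) = Real.pi - (x : ℝ) * (Real.pi / (A + 1)) := by
        field_simp
      rw [this, Real.sin_pi_sub]
    rw [e0]
    have h0 : 0 ≤ (A : ℝ) + 1 - x := by linarith
    have h1 : ((A : ℝ) + 1 - x) * (Real.pi / (A + 1)) ≤ Real.pi / 2 := by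
      rw [mul_div_assoc', div_le_div_iff₀ hN (by norm_num)]
      nlinarith
    have h2 := Real.mul_le_sin (by positivity : 0 ≤ ((A : ℝ) + 1 - x) * (Real.pi / (A + 1))) h1
    refine le_trans ?_ h2
    have e : 2 / Real.pi * (((A : ℝ) + 1 - x) * (Real.pi / (A + 1))) =
        2 * ((A : ℝ) + 1 - x) / (A + 1) := by
      field_simp
    rw [e]
    exact div_le_div_of_nonneg_right (by linarith) hN.le

theorem decay {A : ℕ} (hA : 3 ≤ A) {s : ℕ} (hs : 2 * (A : ℝ) ^ 2 * (1 + Real.log A) ≤ s) :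
    (A : ℝ) * Real.cos (2 * (Real.pi / (A + 1))) ^ s ≤
      Real.cos (Real.pi / (A + 1)) ^ s * (4 / ((A : ℝ) + 1) ^ 2) := by
  have hA' : (3 : ℝ) ≤ A := by exact_mod_cast hA
  set N : ℝ := (A : ℝ) + 1 with hN
  have hN0 : 0 < N := by linarith
  have hN4 : 4 ≤ N := by linarith
  have hN2 : N ≤ 2 * A := by linarith
  have hp := Real.pi_pos
  set θ := Real.pi / N with hθ
  have hθ0 : 0 < θ := by positivity
  have hθ4 : θ ≤ Real.pi / 4 := by
    rw [hθ]
    exact div_le_div_of_nonneg_left hp.le (by norm_num) hN4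
  set c := Real.cos θ with hc
  have hc0 : 0 < c := Real.cos_pos_of_mem_Ioo ⟨by linarith, by linarith⟩
  have hc1 : c ≤ 1 := Real.cos_le_one _
  have h1c : 2 / N ^ 2 ≤ 1 - c := by
    have h1 := Real.mul_le_sin (by positivity : 0 ≤ θ / 2) (by linarith)
    have e : 2 / Real.pi * (θ / 2) = 1 / N := by
      rw [hθ]
      field_simp
    rw [e] at h1
    have h2 : 1 - c = 2 * Real.sin (θ / 2) ^ 2 := by
      have : θ = 2 * (θ / 2) := by ring
      rw [hc]
      conv_lhs => rw [this]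
      rw [Real.cos_two_mul, Real.sin_sq]
      ring
    rw [h2]
    have h3 : (1 / N) ^ 2 ≤ Real.sin (θ / 2) ^ 2 := pow_le_pow_left₀ (by positivity) h1 2
    have e2 : 2 / N ^ 2 = 2 * (1 / N) ^ 2 := by field_simp
    rw [e2]
    linarith
  have hN16 : 16 ≤ N ^ 2 := by nlinarith
  have h6 : 6 / N ^ 2 ≤ 1 := by
    rw [div_le_one (by positivity)]
    linarith
  have hc2 : Real.cos (2 * θ) ≤ c * (1 - 6 / N ^ 2) := by
    rw [Real.cos_two_mul, ← hc]
    have h3 : 6 * c / N ^ 2 ≤ (1 - c) * (1 + 2 * c) := by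
      calc 6 * c / N ^ 2 = (2 / N ^ 2) * (3 * c) := by ring
        _ ≤ (1 - c) * (1 + 2 * c) :=
          mul_le_mul h1c (by linarith) (by positivity) (by linarith)
    have e3 : c * (1 - 6 / N ^ 2) = c - 6 * c / N ^ 2 := by ring
    rw [e3]
    nlinarith
  have hc20 : 0 ≤ Real.cos (2 * θ) := Real.cos_nonneg_of_mem_Icc ⟨by linarith, by linarith⟩
  have h7 : Real.cos (2 * θ) ^ s ≤ c ^ s * Real.exp (-(6 / N ^ 2) * s) := by
    refine (pow_le_pow_left₀ hc20 hc2 s).trans ?_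
    rw [mul_pow]
    refine mul_le_mul_of_nonneg_left ?_ (by positivity)
    refine (pow_le_pow_left₀ (by linarith) (Real.one_sub_le_exp_neg (6 / N ^ 2)) s).trans (le_of_eq ?_)
    rw [← Real.exp_nat_mul]
    congr 1
    ring
  have hlog : 0 ≤ Real.log A := Real.log_nonneg (by linarith)
  have h8 : Real.exp (-(6 / N ^ 2) * s) ≤ ((A : ℝ) ^ 3)⁻¹ := by
    have e4 : ((A : ℝ) ^ 3)⁻¹ = Real.exp (-(3 * Real.log A)) := by
      rw [Real.exp_neg]
      congr 1
      have : (3 : ℝ) * Real.log A = ((3 : ℕ) : ℝ) * Real.log A := by norm_num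
      rw [this, Real.exp_nat_mul, Real.exp_log (by linarith)]
    rw [e4]
    refine Real.exp_le_exp.2 ?_
    have e5 : 3 * Real.log A ≤ 6 / N ^ 2 * s := by
      have h9 : N ^ 2 ≤ 4 * (A : ℝ) ^ 2 := by nlinarith
      have h10 : 6 / (4 * (A : ℝ) ^ 2) ≤ 6 / N ^ 2 :=
        div_le_div_of_nonneg_left (by norm_num) (by positivity) h9
      calc 3 * Real.log A ≤ 3 * (1 + Real.log A) := by linarith
        _ = 6 / (4 * (A : ℝ) ^ 2) * (2 * (A : ℝ) ^ 2 * (1 + Real.log A)) := by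
          field_simp
          ring
        _ ≤ 6 / N ^ 2 * s := mul_le_mul h10 hs (by positivity) (by positivity)
    linarith
  calc (A : ℝ) * Real.cos (2 * θ) ^ s ≤ (A : ℝ) * (c ^ s * ((A : ℝ) ^ 3)⁻¹) := by
        refine mul_le_mul_of_nonneg_left (h7.trans ?_) (by linarith)
        exact mul_le_mul_of_nonneg_left h8 (by positivity)
    _ = c ^ s * (1 / (A : ℝ) ^ 2) := by
        field_simp
    _ ≤ c ^ s * (4 / N ^ 2) := by
        refine mul_le_mul_of_nonneg_left ?_ (by positivity)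
        rw [div_le_div_iff₀ (by positivity) (by positivity)]
        nlinarith

theorem taskMix : TaskMix := by
  refine ⟨2, by norm_num, ?_⟩
  intro A hA s x y hs hx1 hx2 hy1 hy2 hpar
  rw [q_eq A s y hy1 hy2 x (by omega) (by omega)]
  have hA' : (3 : ℝ) ≤ A := by exact_mod_cast hA
  have hN0 : (0 : ℝ) < (A : ℝ) + 1 := by linarith
  have hp := Real.pi_pos
  have ex : Real.pi * (x : ℝ) / (A + 1) = (x : ℝ) * (Real.pi / (A + 1)) := by ring
  have ey : Real.pi * (y : ℝ) / (A + 1) = (y : ℝ) * (Real.pi / (A + 1)) := by ring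
  rw [ex, ey]
  have hsx := sin_low hx1 hx2
  have hsy := sin_low hy1 hy2
  set θ := Real.pi / ((A : ℝ) + 1) with hθ
  set a := Real.sin ((x : ℝ) * θ) with ha
  set b := Real.sin ((y : ℝ) * θ) with hb
  set R := Real.cos θ ^ s with hR
  have hdec := decay hA hs
  rw [← hθ, ← hR] at hdec
  have hθ0 : 0 < θ := by positivity
  have hNθ : ((A : ℝ) + 1) * θ = Real.pi := by
    rw [hθ]
    field_simp
  have hθ4 : θ ≤ Real.pi / 4 := by
    rw [hθ]
    exact div_le_div_of_nonneg_left hp.le (by norm_num) (by linarith)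
  have hcθ : 0 < Real.cos θ := Real.cos_pos_of_mem_Ioo ⟨by linarith, by linarith⟩
  have hR0 : 0 ≤ R := by positivity
  have hab : 4 / ((A : ℝ) + 1) ^ 2 ≤ a * b := by
    have : (2 / ((A : ℝ) + 1)) * (2 / ((A : ℝ) + 1)) ≤ a * b :=
      mul_le_mul hsx hsy (by positivity) (by linarith [hsx, (by positivity : (0:ℝ) ≤ 2 / ((A : ℝ) + 1))])
    refine le_trans (le_of_eq ?_) this
    field_simp
    norm_num
  obtain ⟨B, rfl⟩ : ∃ B, A = B + 2 := ⟨A - 2, by omega⟩
  have hsum : ∑ j ∈ range (B + 2), tm (B + 2) s x y j =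
      tm (B + 2) s x y 0 + ∑ j ∈ range B, tm (B + 2) s x y (j + 1) + tm (B + 2) s x y (B + 1) := by
    rw [sum_range_succ, sum_range_succ']
    ring
  have hfirst : tm (B + 2) s x y 0 = R * (a * b) := by
    unfold tm
    rw [← hθ]
    simp only [Nat.cast_zero, zero_add, one_mul]
    rw [← hR, ← ha, ← hb]
  have hlast : tm (B + 2) s x y (B + 1) = R * (a * b) := by
    unfold tm
    rw [← hθ]
    have hB : (((B + 1 : ℕ) : ℝ) + 1) = ((B + 2 : ℕ) : ℝ) + 1 - 1 := by push_cast; ring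
    have c1 : Real.cos ((((B + 1 : ℕ) : ℝ) + 1) * θ) = -Real.cos θ := by
      rw [hB, sub_mul, hNθ, one_mul, Real.cos_pi_sub]
    have s1 : ∀ z : ℤ, Real.sin ((((B + 1 : ℕ) : ℝ) + 1) * ((z : ℝ) * θ)) =
        -((-1 : ℝ) ^ z) * Real.sin ((z : ℝ) * θ) := by
      intro z
      have : (((B + 1 : ℕ) : ℝ) + 1) * ((z : ℝ) * θ) = (z : ℝ) * Real.pi - (z : ℝ) * θ := by
        rw [hB, ← hNθ]
        ring
      rw [this, Real.sin_sub, Real.sin_int_mul_pi, Real.cos_int_mul_pi]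
      ring
    rw [c1, s1 x, s1 y, ← ha, ← hb]
    have h1 : (-Real.cos θ) ^ s = (-1 : ℝ) ^ s * R := by
      rw [neg_pow, hR]
    have h2 : (-1 : ℝ) ^ s * ((-1 : ℝ) ^ x * (-1 : ℝ) ^ y) = 1 := by
      rw [← zpow_natCast, ← zpow_add₀ (by norm_num), ← zpow_add₀ (by norm_num)]
      exact Even.neg_one_zpow (by
        rw [Int.even_iff]
        omega)
    rw [h1]
    calc (-1 : ℝ) ^ s * R * (-(-1 : ℝ) ^ x * a * (-(-1 : ℝ) ^ y * b)) =
        ((-1 : ℝ) ^ s * ((-1 : ℝ) ^ x * (-1 : ℝ) ^ y)) * (R * (a * b)) := by ring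
      _ = R * (a * b) := by rw [h2, one_mul]
  have hc20 : 0 ≤ Real.cos (2 * θ) := Real.cos_nonneg_of_mem_Icc ⟨by linarith, by linarith⟩
  have hmid : |∑ j ∈ range B, tm (B + 2) s x y (j + 1)| ≤ B * Real.cos (2 * θ) ^ s := by
    refine (abs_sum_le_sum_abs _ _).trans ?_
    have : ∀ j ∈ range B, |tm (B + 2) s x y (j + 1)| ≤ Real.cos (2 * θ) ^ s := by
      intro j hj
      rw [mem_range] at hj
      have hj' : (j : ℝ) + 1 ≤ B := by exact_mod_cast hj
      have hj0 : (0 : ℝ) ≤ j := Nat.cast_nonneg j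
      unfold tm
      rw [← hθ, abs_mul, abs_mul, abs_pow]
      have hlow : 2 * θ ≤ (((j + 1 : ℕ) : ℝ) + 1) * θ := by
        push_cast
        nlinarith
      have hNθ' : ((B : ℝ) + 3) * θ = Real.pi := by
        rw [← hNθ]
        push_cast
        ring
      have hup : (((j + 1 : ℕ) : ℝ) + 1) * θ ≤ Real.pi - 2 * θ := by
        push_cast
        nlinarith
      have c1 : |Real.cos ((((j + 1 : ℕ) : ℝ) + 1) * θ)| ≤ Real.cos (2 * θ) := by
        rw [abs_le]
        constructor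
        · rw [← Real.cos_pi_sub]
          exact Real.cos_le_cos_of_nonneg_of_le_pi (by linarith) (by linarith) hup
        · exact Real.cos_le_cos_of_nonneg_of_le_pi (by positivity) (by linarith) hlow
      calc _ ≤ Real.cos (2 * θ) ^ s * (1 * 1) := by
            refine mul_le_mul (pow_le_pow_left₀ (abs_nonneg _) c1 s) ?_ (by positivity) (by positivity)
            exact mul_le_mul (Real.abs_sin_le_one _) (Real.abs_sin_le_one _) (abs_nonneg _) zero_le_one
        _ = _ := by ring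
    refine (sum_le_sum this).trans (le_of_eq ?_)
    simp
  have hmid2 : |∑ j ∈ range B, tm (B + 2) s x y (j + 1)| ≤ R * (a * b) := by
    refine hmid.trans ?_
    have h1 : (B : ℝ) * Real.cos (2 * θ) ^ s ≤ ((B + 2 : ℕ) : ℝ) * Real.cos (2 * θ) ^ s := by
      refine mul_le_mul_of_nonneg_right ?_ (by positivity)
      push_cast
      linarith
    exact h1.trans (hdec.trans (mul_le_mul_of_nonneg_left hab hR0))
  unfold Kr
  rw [hsum, hfirst, hlast]
  have hm := abs_le.1 hmid2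
  have hab0 : 0 ≤ R * (a * b) := by
    have : 0 ≤ 4 / (((B + 2 : ℕ) : ℝ) + 1) ^ 2 := by positivity
    exact mul_nonneg hR0 (this.trans hab)
  have hN2 : 0 ≤ 2 / (((B + 2 : ℕ) : ℝ) + 1) := by positivity
  constructor
  · calc R * (2 / (((B + 2 : ℕ) : ℝ) + 1)) * a * b = 2 / (((B + 2 : ℕ) : ℝ) + 1) * (R * (a * b)) := by ring
      _ ≤ _ := mul_le_mul_of_nonneg_left (by linarith [hm.1]) hN2
  · calc _ ≤ 2 / (((B + 2 : ℕ) : ℝ) + 1) * (4 * (R * (a * b))) :=
          mul_le_mul_of_nonneg_left (by linarith [hm.2]) hN2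
      _ = R * (8 / (((B + 2 : ℕ) : ℝ) + 1)) * a * b := by ring

end Pool.Agent.H791R3.DM
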